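import Mathlib

/-! Vectors which are isotropic for several bilinear forms over a ring with totally ordered ideals. -/

set_option autoImplicit false
set_option linter.all false

open Matrix

namespace Pool.Agent.V5helper88.PI

variable {R : Type*} [CommRing R]

theorem exists_dvd_all [PreValuationRing R] {α : Type*} (s : Finset α) (hs : s.Nonempty) (f : α → R) :
    ∃ i ∈ s, ∀ j ∈ s, f i ∣ f j := by
  classical
  induction s using Finset.cons_induction with
  | empty => exact absurd hs (by simp)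
  | cons a s ha ih =>
    rcases s.eq_empty_or_nonempty with h0 | h0
    · subst h0
      exact ⟨a, by simp, fun j hj => by simp at hj; rw [hj]⟩
    · obtain ⟨i, hi, hij⟩ := ih h0
      rcases ValuationRing.dvd_total (f a) (f i) with h | h
      · refine ⟨a, by simp, fun j hj => ?_⟩
        rcases Finset.mem_cons.1 hj with rfl | hj
        · exact dvd_rfl
        · exact h.trans (hij j hj)
      · refine ⟨i, by simp [hi], fun j hj => ?_⟩
        rcases Finset.mem_cons.1 hj with rfl | hj
        · exact h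
        · exact hij j hj

theorem exists_all_dvd [PreValuationRing R] {α : Type*} (s : Finset α) (hs : s.Nonempty) (f : α → R) :
    ∃ i ∈ s, ∀ j ∈ s, f j ∣ f i := by
  classical
  induction s using Finset.cons_induction with
  | empty => exact absurd hs (by simp)
  | cons a s ha ih =>
    rcases s.eq_empty_or_nonempty with h0 | h0
    · subst h0
      exact ⟨a, by simp, fun j hj => by simp at hj; rw [hj]⟩
    · obtain ⟨i, hi, hij⟩ := ih h0
      rcases ValuationRing.dvd_total (f i) (f a) with h | h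
      · refine ⟨a, by simp, fun j hj => ?_⟩
        rcases Finset.mem_cons.1 hj with rfl | hj
        · exact dvd_rfl
        · exact (hij j hj).trans h
      · refine ⟨i, by simp [hi], fun j hj => ?_⟩
        rcases Finset.mem_cons.1 hj with rfl | hj
        · exact h
        · exact hij j hj

/-- the kernel of a functional contains a split free module of corank one -/
theorem ker_one [PreValuationRing R] (m : ℕ) (g : (Fin (m + 1) → R) →ₗ[R] R) :
    ∃ (ι : (Fin m → R) →ₗ[R] (Fin (m + 1) → R)) (ρ : (Fin (m + 1) → R) →ₗ[R] (Fin m → R)),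
      (∀ x, ρ (ι x) = x) ∧ ∀ x, g (ι x) = 0 := by
  classical
  obtain ⟨i0, -, h0⟩ := exists_dvd_all (Finset.univ : Finset (Fin (m + 1))) ⟨0, by simp⟩
    (fun i => g (Pi.single i 1))
  choose c hc using fun i => h0 i (Finset.mem_univ i)
  refine ⟨Fintype.linearCombination R (fun j => Pi.single (i0.succAbove j) (1 : R) -
    c (i0.succAbove j) • Pi.single i0 (1 : R)), LinearMap.funLeft R R i0.succAbove, fun x => ?_, fun x => ?_⟩
  · funext j
    rw [LinearMap.funLeft_apply, Fintype.linearCombination_apply, Finset.sum_apply, Finset.sum_eq_single j]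
    · simp
    · intro b _ hb
      have h1 : i0.succAbove j ≠ i0.succAbove b := fun h => hb (Fin.succAbove_right_injective h).symm
      simp [Pi.single_eq_of_ne h1, Pi.single_eq_of_ne (Fin.succAbove_ne i0 j)]
    · intro h; exact absurd (Finset.mem_univ j) h
  · rw [Fintype.linearCombination_apply, map_sum]
    refine Finset.sum_eq_zero fun j _ => ?_
    rw [map_smul, map_sub, map_smul, hc (i0.succAbove j), smul_eq_mul, smul_eq_mul]
    ring

theorem ker_list [PreValuationRing R] (m' : ℕ) : ∀ (l : List ((Fin m' → R) →ₗ[R] R)) (m : ℕ),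
    m + l.length ≤ m' → ∃ (ι : (Fin m → R) →ₗ[R] (Fin m' → R)) (ρ : (Fin m' → R) →ₗ[R] (Fin m → R)),
      (∀ x, ρ (ι x) = x) ∧ ∀ g ∈ l, ∀ x, g (ι x) = 0 := by
  classical
  intro l
  induction l with
  | nil =>
    intro m hm
    have hm' : m ≤ m' := by simpa using hm
    refine ⟨Fintype.linearCombination R (fun j => Pi.single (Fin.castLE hm' j) (1 : R)),
      LinearMap.funLeft R R (Fin.castLE hm'), fun x => ?_, fun g hg => by simp at hg⟩
    funext j
    rw [LinearMap.funLeft_apply, Fintype.linearCombination_apply, Finset.sum_apply, Finset.sum_eq_single j]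
    · simp
    · intro b _ hb
      have h1 : Fin.castLE hm' j ≠ Fin.castLE hm' b := fun h => hb (Fin.castLE_injective hm' h).symm
      simp [Pi.single_eq_of_ne h1]
    · intro h; exact absurd (Finset.mem_univ j) h
  | cons g l ih =>
    intro m hm
    obtain ⟨ι₁, ρ₁, h₁, h₁'⟩ := ih (m + 1) (by simp only [List.length_cons] at hm; omega)
    obtain ⟨ι₂, ρ₂, h₂, h₂'⟩ := ker_one m (g ∘ₗ ι₁)
    refine ⟨ι₁ ∘ₗ ι₂, ρ₂ ∘ₗ ρ₁, fun x => by simp [h₁, h₂], fun g' hg' x => ?_⟩
    rcases List.mem_cons.1 hg' with rfl | hg'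
    · exact h₂' x
    · exact h₁' g' hg' (ι₂ x)

theorem ker_fam [PreValuationRing R] {κ : Type*} [Fintype κ] (m m' : ℕ) (h : m + Fintype.card κ ≤ m')
    (g : κ → (Fin m' → R) →ₗ[R] R) :
    ∃ (ι : (Fin m → R) →ₗ[R] (Fin m' → R)) (ρ : (Fin m' → R) →ₗ[R] (Fin m → R)),
      (∀ x, ρ (ι x) = x) ∧ ∀ k x, g k (ι x) = 0 := by
  classical
  obtain ⟨ι, ρ, h1, h2⟩ := ker_list m' ((Finset.univ : Finset κ).toList.map g) m (by
    rw [List.length_map, Finset.length_toList, Finset.card_univ]; exact h)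
  exact ⟨ι, ρ, h1, fun k x => h2 (g k) (List.mem_map.2 ⟨k, by simp, rfl⟩) x⟩

/-- many isotropic vectors from one -/
theorem many_of_one [PreValuationRing R] {κ κ' : Type*} [Fintype κ] [Fintype κ'] (N : ℕ)
    (hV : ∀ m, N ≤ m → ∀ F : κ → LinearMap.BilinForm R (Fin m → R),
      ∃ (x : Fin m → R) (lam : (Fin m → R) →ₗ[R] R), lam x = 1 ∧ ∀ k, F k x x = 0) :
    ∀ (W m : ℕ), N + W * (2 * Fintype.card κ + 2 * Fintype.card κ' + 1) ≤ m →
    ∀ (F : Fin W → κ → LinearMap.BilinForm R (Fin m → R)) (E : Fin W → κ' → LinearMap.BilinForm R (Fin m → R)),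
      ∃ (w : Fin W → (Fin m → R)) (lam : Fin W → (Fin m → R) →ₗ[R] R),
        (∀ i j, lam i (w j) = if i = j then 1 else 0) ∧ (∀ k i j, F i k (w i) (w j) = 0) ∧
        (∀ k i j, i ≠ j → E i k (w i) (w j) = 0) := by
  classical
  intro W
  induction W with
  | zero =>
    intro m _ F E
    exact ⟨Fin.elim0, Fin.elim0, fun i => i.elim0, fun k i => i.elim0, fun k i => i.elim0⟩
  | succ W ih =>
    intro m hm F E
    set C := 2 * Fintype.card κ + 2 * Fintype.card κ' + 1 with hC
    have hm2 : N + W * C + C ≤ m := by rw [Nat.succ_mul] at hm; omega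
    obtain ⟨w, lam, h1, h2, h3⟩ := ih m (by omega) (fun i => F i.castSucc) (fun i => E i.castSucc)
    obtain ⟨ι, ρ, hιρ, hker⟩ := ker_fam (κ := Fin W × ((κ ⊕ κ) ⊕ (κ' ⊕ κ') ⊕ Unit)) (m - W * C) m (by
      simp only [Fintype.card_sum, Fintype.card_unit, Fintype.card_prod, Fintype.card_fin]
      have e1 : Fintype.card κ + Fintype.card κ + (Fintype.card κ' + Fintype.card κ' + 1) = C := by omega
      rw [e1]
      omega)
      (fun q => Sum.elim (Sum.elim (fun k => F q.1.castSucc k (w q.1)) (fun k => (F (Fin.last W) k).flip (w q.1)))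
        (Sum.elim (Sum.elim (fun k => E q.1.castSucc k (w q.1)) (fun k => (E (Fin.last W) k).flip (w q.1)))
          (fun _ => lam q.1)) q.2)
    have hF1 : ∀ i k y, F i.castSucc k (w i) (ι y) = 0 := fun i k y => hker (i, Sum.inl (Sum.inl k)) y
    have hF2 : ∀ i k y, F (Fin.last W) k (ι y) (w i) = 0 := fun i k y => hker (i, Sum.inl (Sum.inr k)) y
    have hE1 : ∀ i k y, E i.castSucc k (w i) (ι y) = 0 := fun i k y => hker (i, Sum.inr (Sum.inl (Sum.inl k))) y
    have hE2 : ∀ i k y, E (Fin.last W) k (ι y) (w i) = 0 := fun i k y => hker (i, Sum.inr (Sum.inl (Sum.inr k))) y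
    have hl : ∀ i y, lam i (ι y) = 0 := fun i y => hker (i, Sum.inr (Sum.inr ())) y
    obtain ⟨x, l0, hx1, hx2⟩ := hV (m - W * C) (by omega) (fun k => (F (Fin.last W) k).compl₁₂ ι ι)
    have hx3 : ∀ k, F (Fin.last W) k (ι x) (ι x) = 0 := fun k => by
      simpa [LinearMap.compl₁₂_apply] using hx2 k
    let l1 : (Fin m → R) →ₗ[R] R := l0 ∘ₗ ρ - ∑ i, (l0 (ρ (w i))) • lam i
    have hl1 : ∀ y, l1 y = l0 (ρ y) - ∑ i, (l0 (ρ (w i))) * lam i y := by
      intro y
      simp only [l1, LinearMap.sub_apply, LinearMap.comp_apply, LinearMap.sum_apply, LinearMap.smul_apply,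
        smul_eq_mul]
    refine ⟨Fin.snoc w (ι x), Fin.snoc lam l1, ?_, ?_, ?_⟩
    · intro i j
      refine Fin.lastCases ?_ (fun i => ?_) i <;> refine Fin.lastCases ?_ (fun j => ?_) j
      · rw [Fin.snoc_last, Fin.snoc_last, hl1, hιρ, hx1, if_pos rfl]
        rw [Finset.sum_eq_zero fun i _ => by rw [hl, mul_zero], sub_zero]
      · rw [Fin.snoc_last, Fin.snoc_castSucc, hl1, if_neg (Fin.castSucc_lt_last j).ne']
        rw [Finset.sum_eq_single j]
        · rw [h1, if_pos rfl, mul_one, sub_self]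
        · intro i _ hi; rw [h1, if_neg hi, mul_zero]
        · intro h; exact absurd (Finset.mem_univ _) h
      · rw [Fin.snoc_last, Fin.snoc_castSucc, hl, if_neg (Fin.castSucc_lt_last i).ne]
      · rw [Fin.snoc_castSucc, Fin.snoc_castSucc, h1]
        simp only [Fin.castSucc_inj]
    · intro k i j
      refine Fin.lastCases ?_ (fun i => ?_) i <;> refine Fin.lastCases ?_ (fun j => ?_) j
      · rw [Fin.snoc_last]; exact hx3 k
      · rw [Fin.snoc_last, Fin.snoc_castSucc]; exact hF2 j k x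
      · rw [Fin.snoc_last, Fin.snoc_castSucc]; exact hF1 i k x
      · rw [Fin.snoc_castSucc, Fin.snoc_castSucc]; exact h2 k i j
    · intro k i j
      refine Fin.lastCases ?_ (fun i => ?_) i <;> refine Fin.lastCases ?_ (fun j => ?_) j
      · intro h; exact absurd rfl h
      · intro _; rw [Fin.snoc_last, Fin.snoc_castSucc]; exact hE2 j k x
      · intro _; rw [Fin.snoc_last, Fin.snoc_castSucc]; exact hE1 i k x
      · intro h
        rw [Fin.snoc_castSucc, Fin.snoc_castSucc]
        exact h3 k i j (fun e => h (by rw [e]))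

/-- a ring over which forms in many variables have zeros -/
structure Good (R : Type*) [CommRing R] : Prop where
  pre : PreValuationRing R
  cls : ∃ T : Fin 8 → R, ∀ c : R, ∃ i y, c = T i * y ^ 2
  five : ∃ a b c d : R, 1 + a ^ 2 + b ^ 2 + c ^ 2 + d ^ 2 = 0

/-- a diagonal form in 33 variables has a split zero -/
theorem Good.diag (hR : Good R) (c : Fin 33 → R) : ∃ t : Fin 33 → R, (∃ i, t i = 1) ∧ ∑ i, c i * t i ^ 2 = 0 := by
  classical
  haveI := hR.pre
  obtain ⟨T, hT⟩ := hR.cls
  obtain ⟨a0, a1, a2, a3, ha⟩ := hR.five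
  choose q y hq using fun i => hT (c i)
  obtain ⟨r, hr⟩ := Fintype.exists_lt_card_fiber_of_mul_lt_card q (n := 4) (by simp)
  obtain ⟨s, hs1, hs2⟩ := Finset.exists_subset_card_eq (Nat.succ_le_of_lt hr)
  have hsne : s.Nonempty := by rw [← Finset.card_pos, hs2]; norm_num
  obtain ⟨i0, hi0, hmax⟩ := exists_all_dvd s hsne y
  have hq0 : ∀ i ∈ s, q i = r := fun i hi => (Finset.mem_filter.1 (hs1 hi)).2
  have h4 : (s.erase i0).card = 4 := by rw [Finset.card_erase_of_mem hi0, hs2]
  let e : Fin 4 ≃ s.erase i0 := ((s.erase i0).equivFinOfCardEq h4).symm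
  have hd : ∀ i : s.erase i0, ∃ t, y i0 = y i * t := fun i => hmax i (Finset.mem_of_mem_erase i.2)
  choose t' ht' using hd
  let A : Fin 4 → R := ![a0, a1, a2, a3]
  let t : Fin 33 → R := fun i => if i = i0 then 1 else if h : i ∈ s.erase i0 then t' ⟨i, h⟩ * A (e.symm ⟨i, h⟩) else 0
  refine ⟨t, ⟨i0, by simp [t]⟩, ?_⟩
  have h5 : ∑ i, c i * t i ^ 2 = ∑ i ∈ s, c i * t i ^ 2 := by
    refine (Finset.sum_subset (Finset.subset_univ s) fun i _ hi => ?_).symm
    have h6 : i ≠ i0 := fun h => hi (h ▸ hi0)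
    have h7 : ¬ i ∈ s.erase i0 := fun h => hi (Finset.mem_of_mem_erase h)
    simp only [t, if_neg h6, dif_neg h7]
    ring
  rw [h5, ← Finset.add_sum_erase s _ hi0, ← Finset.sum_coe_sort (s.erase i0), ← Equiv.sum_comp e]
  have h8 : ∀ k : Fin 4, c (e k) * t (e k) ^ 2 = c i0 * A k ^ 2 := by
    intro k
    have h6 : ((e k : s.erase i0) : Fin 33) ≠ i0 := Finset.ne_of_mem_erase (e k).2
    have h9 : t (e k) = t' (e k) * A k := by
      simp only [t, if_neg h6, dif_pos (e k).2]
      rw [show (⟨((e k : s.erase i0) : Fin 33), (e k).2⟩ : s.erase i0) = e k from rfl, Equiv.symm_apply_apply]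
    rw [h9, hq (e k), hq i0, hq0 _ (Finset.mem_of_mem_erase (e k).2), hq0 i0 hi0, ht' (e k)]
    ring
  rw [Finset.sum_congr rfl fun k _ => h8 k, Fin.sum_univ_four]
  have h10 : t i0 = 1 := by simp [t]
  rw [h10]
  simp only [A, Matrix.cons_val_zero, Matrix.cons_val_one, Matrix.cons_val]
  calc c i0 * 1 ^ 2 + (c i0 * a0 ^ 2 + c i0 * a1 ^ 2 + c i0 * a2 ^ 2 + c i0 * a3 ^ 2)
      = c i0 * (1 + a0 ^ 2 + a1 ^ 2 + a2 ^ 2 + a3 ^ 2) := by ring
    _ = 0 := by rw [ha, mul_zero]

/-- the number of variables -/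
def nv : ℕ → ℕ
  | 0 => 1
  | L + 1 => nv L + 33 * (2 * L + 3)

theorem nv_le (L : ℕ) : nv L ≤ 1 + 33 * (L ^ 2 + 2 * L) := by
  induction L with
  | zero => simp [nv]
  | succ L ih => rw [nv]; nlinarith

theorem Good.one (hR : Good R) : ∀ (L m : ℕ), nv L ≤ m → ∀ F : Fin L → LinearMap.BilinForm R (Fin m → R),
    ∃ (x : Fin m → R) (lam : (Fin m → R) →ₗ[R] R), lam x = 1 ∧ ∀ k, F k x x = 0 := by
  classical
  haveI := hR.pre
  intro L
  induction L with
  | zero =>
    intro m hm F
    have hm' : 0 < m := by rw [nv] at hm; omega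
    exact ⟨Pi.single ⟨0, hm'⟩ 1, LinearMap.proj ⟨0, hm'⟩, by simp, fun k => k.elim0⟩
  | succ L ih =>
    intro m hm F
    rw [nv] at hm
    obtain ⟨w, lam, h1, h2, h3⟩ := many_of_one (κ := Fin L) (κ' := Unit) (nv L) ih 33 m (by
      simp only [Fintype.card_fin, Fintype.card_unit]; omega) (fun _ k => F k.castSucc)
        (fun _ _ => F (Fin.last L))
    obtain ⟨t, ⟨i0, hi0⟩, ht⟩ := hR.diag (fun i => F (Fin.last L) (w i) (w i))
    refine ⟨∑ i, t i • w i, lam i0, ?_, fun k => ?_⟩
    · rw [map_sum, Finset.sum_eq_single i0]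
      · rw [map_smul, h1, if_pos rfl, hi0, smul_eq_mul, mul_one]
      · intro j _ hj; rw [map_smul, h1, if_neg (Ne.symm hj), smul_zero]
      · intro h; exact absurd (Finset.mem_univ _) h
    · have key : ∀ k, F k (∑ i, t i • w i) (∑ i, t i • w i) = ∑ i, ∑ j, t i * (t j * F k (w i) (w j)) := by
        intro k
        have e1 : F k (∑ i, t i • w i) = ∑ i, t i • F k (w i) := by
          rw [map_sum]
          exact Finset.sum_congr rfl fun i _ => map_smul _ _ _
        rw [e1, LinearMap.sum_apply]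
        refine Finset.sum_congr rfl fun i _ => ?_
        rw [map_sum]
        refine Finset.sum_congr rfl fun j _ => ?_
        rw [map_smul, LinearMap.smul_apply, smul_eq_mul, smul_eq_mul]
        ring
      rw [key]
      refine Fin.lastCases ?_ (fun k => ?_) k
      · rw [← ht]
        refine Finset.sum_congr rfl fun i _ => ?_
        rw [Finset.sum_eq_single i]
        · ring
        · intro j _ hj; rw [h3 () i j (Ne.symm hj)]; ring
        · intro h; exact absurd (Finset.mem_univ _) h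
      · refine Finset.sum_eq_zero fun i _ => Finset.sum_eq_zero fun j _ => ?_
        rw [h2 k i j]; ring

/-- **Isotropic vectors** for a family of bilinear forms and of linear forms. -/
theorem Good.many (hR : Good R) {κ κ' : Type*} [Fintype κ] [Fintype κ'] (W m : ℕ)
    (hm : nv (Fintype.card κ) + W * (2 * Fintype.card κ + 1) + Fintype.card κ' ≤ m)
    (F : Fin W → κ → LinearMap.BilinForm R (Fin m → R)) (G : κ' → (Fin m → R) →ₗ[R] R) :
    ∃ (w : Fin W → (Fin m → R)) (lam : Fin W → (Fin m → R) →ₗ[R] R),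
      (∀ i j, lam i (w j) = if i = j then 1 else 0) ∧ (∀ k i j, F i k (w i) (w j) = 0) ∧
      (∀ k i, G k (w i) = 0) := by
  classical
  haveI := hR.pre
  obtain ⟨ι, ρ, hιρ, hker⟩ := ker_fam (m - Fintype.card κ') m (by omega) G
  have hV : ∀ m, nv (Fintype.card κ) ≤ m → ∀ F : κ → LinearMap.BilinForm R (Fin m → R),
      ∃ (x : Fin m → R) (lam : (Fin m → R) →ₗ[R] R), lam x = 1 ∧ ∀ k, F k x x = 0 := by
    intro m hm F
    obtain ⟨x, lam, h1, h2⟩ := hR.one (Fintype.card κ) m hm (fun l => F ((Fintype.equivFin κ).symm l))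
    exact ⟨x, lam, h1, fun k => by simpa using h2 (Fintype.equivFin κ k)⟩
  obtain ⟨w, lam, h1, h2, -⟩ := many_of_one (κ := κ) (κ' := Fin 0) (nv (Fintype.card κ)) hV W
    (m - Fintype.card κ') (by simp only [Fintype.card_fin, mul_zero, add_zero]; omega)
    (fun i k => (F i k).compl₁₂ ι ι) (fun _ => Fin.elim0)
  refine ⟨fun i => ι (w i), fun i => lam i ∘ₗ ρ, fun i j => ?_, fun k i j => ?_, fun k i => hker k _⟩
  · rw [LinearMap.comp_apply, hιρ, h1]
  · simpa [LinearMap.compl₁₂_apply] using h2 k i j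

end Pool.Agent.V5helper88.PI
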