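import Mathlib
import Pool.Agent.V5helper88.PI.Iso

/-! The rings of integers modulo a prime power are good. -/

set_option autoImplicit false
set_option linter.all false

namespace Pool.Agent.V5helper88.PI

theorem sq_two (x : ℤ) (hx : (8 : ℤ) ∣ 1 - x) : ∀ k : ℕ, ∃ s : ℤ, (2 : ℤ) ^ (k + 3) ∣ s ^ 2 - x := by
  intro k
  induction k with
  | zero => exact ⟨1, by simpa using hx⟩
  | succ k ih =>
    obtain ⟨s, c, hc⟩ := ih
    rcases Int.even_or_odd c with ⟨e, he⟩ | ⟨e, he⟩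
    · exact ⟨s, e, by rw [hc, he]; ring⟩
    · have hs : Odd s := by
        by_contra h
        rw [Int.not_odd_iff_even] at h
        obtain ⟨t, ht⟩ := h
        obtain ⟨y, hy⟩ := hx
        have h1 : s ^ 2 = 2 * (2 * t ^ 2) := by rw [ht]; ring
        have h2 : (2 : ℤ) ^ (k + 3) = 2 * (2 * 2 ^ (k + 1)) := by ring
        have h3 : (2 : ℤ) * (2 * t ^ 2) - x = 2 * (2 * 2 ^ (k + 1) * c) := by
          rw [← h1, hc, h2]; ring
        omega
      obtain ⟨t, ht⟩ := hs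
      refine ⟨s + 2 ^ (k + 2), e + t + 1 + 2 ^ k, ?_⟩
      have h1 : (s + 2 ^ (k + 2)) ^ 2 - x = (s ^ 2 - x) + 2 ^ (k + 3) * s + 2 ^ (2 * k + 4) := by ring
      rw [h1, hc, he, ht]
      ring

variable (p k : ℕ)

/-- every element is a power of `p` times a unit -/
theorem repr_pow (hp : p.Prime) (a : ZMod (p ^ k)) : ∃ (i : ℕ) (u : (ZMod (p ^ k))ˣ), a = (p : ZMod (p ^ k)) ^ i * u := by
  haveI : NeZero (p ^ k) := ⟨pow_ne_zero _ hp.ne_zero⟩
  by_cases h0 : a.val = 0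
  · refine ⟨k, 1, ?_⟩
    have h1 : a = 0 := (ZMod.val_eq_zero a).1 h0
    have h2 : ((p : ZMod (p ^ k)) ^ k) = 0 := by rw [← Nat.cast_pow, ZMod.natCast_self]
    rw [h1, h2, zero_mul]
  · obtain ⟨v, m, hm, hv⟩ := Nat.exists_eq_pow_mul_and_not_dvd h0 p hp.ne_one
    have hc : m.Coprime (p ^ k) := Nat.Coprime.pow_right _ ((Nat.coprime_comm.1 ((Nat.Prime.coprime_iff_not_dvd hp).2 hm)))
    refine ⟨v, ZMod.unitOfCoprime m hc, ?_⟩
    rw [ZMod.coe_unitOfCoprime, ← ZMod.natCast_zmod_val a, hv]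
    push_cast
    rfl

theorem pre_zmod (hp : p.Prime) : PreValuationRing (ZMod (p ^ k)) := by
  refine ⟨fun a b => ?_⟩
  obtain ⟨i, u, rfl⟩ := repr_pow p k hp a
  obtain ⟨j, v, rfl⟩ := repr_pow p k hp b
  have key : ∀ (i j : ℕ) (u v : (ZMod (p ^ k))ˣ), i ≤ j →
      (p : ZMod (p ^ k)) ^ i * u * ((p : ZMod (p ^ k)) ^ (j - i) * (↑(u⁻¹) * v)) = (p : ZMod (p ^ k)) ^ j * v := by
    intro i j u v hij
    calc (p : ZMod (p ^ k)) ^ i * u * ((p : ZMod (p ^ k)) ^ (j - i) * (↑(u⁻¹) * v))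
        = ((p : ZMod (p ^ k)) ^ i * (p : ZMod (p ^ k)) ^ (j - i)) * (u * ↑(u⁻¹)) * v := by ring
      _ = _ := by rw [← pow_add, Nat.add_sub_cancel' hij, Units.mul_inv, mul_one]
  rcases le_total i j with h | h
  · exact ⟨_, Or.inl (key i j u v h)⟩
  · exact ⟨_, Or.inr (key j i v u h)⟩

/-- square classes of units -/
theorem unit_cls (hp : p.Prime) : ∃ U : Fin 4 → ZMod (p ^ k), ∀ u : (ZMod (p ^ k))ˣ, ∃ i s, (u : ZMod (p ^ k)) = U i * s ^ 2 := by
  haveI : NeZero (p ^ k) := ⟨pow_ne_zero _ hp.ne_zero⟩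
  by_cases h2 : p = 2
  · subst h2
    refine ⟨![1, 3, 5, 7], fun u => ?_⟩
    by_cases hk : k = 0
    · subst hk
      refine ⟨0, 0, ?_⟩
      haveI : Subsingleton (ZMod (2 ^ 0)) := by
        rw [pow_zero]; infer_instance
      exact Subsingleton.elim _ _
    · set m := (u : ZMod (2 ^ k)).val with hm
      have hcop : m.Coprime (2 ^ k) := ZMod.val_coe_unit_coprime u
      have hodd : m % 2 = 1 := by
        have h3 := Nat.Coprime.coprime_dvd_right (dvd_pow_self 2 hk) hcop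
        rcases Nat.mod_two_eq_zero_or_one m with h | h
        · exfalso
          have h4 : 2 ∣ m := Nat.dvd_of_mod_eq_zero h
          have h5 := Nat.dvd_gcd h4 (dvd_refl 2)
          rw [h3] at h5
          omega
        · exact h
      have key : ∀ r : ℤ, (m : ℤ) % 8 = r → Odd r → ∃ s : ZMod (2 ^ k), (u : ZMod (2 ^ k)) = (r : ZMod (2 ^ k)) * s ^ 2 := by
        intro r hr hr2
        have hcr : IsCoprime r ((2 : ℤ) ^ (k + 3)) := by
          refine IsCoprime.pow_right ?_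
          obtain ⟨t, ht⟩ := hr2
          exact ⟨1, -t, by rw [ht]; ring⟩
        obtain ⟨y, y', hy⟩ := hcr
        have h8 : (8 : ℤ) ∣ 1 - (m : ℤ) * y := by
          have e1 : (1 : ℤ) - m * y = (r - m) * y + y' * 2 ^ (k + 3) := by
            rw [← hy]; ring
          rw [e1]
          refine dvd_add (Dvd.dvd.mul_right ?_ _) (Dvd.dvd.mul_left ?_ _)
          · omega
          · exact ⟨2 ^ k, by ring⟩
        obtain ⟨s, hs⟩ := sq_two _ h8 k
        refine ⟨(s : ZMod (2 ^ k)), ?_⟩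
        have h9 : ((2 ^ k : ℕ) : ℤ) ∣ (m : ℤ) - r * s ^ 2 := by
          have e1 : (m : ℤ) - r * s ^ 2 = y' * 2 ^ (k + 3) * m - r * (s ^ 2 - m * y) := by
            have : (m : ℤ) = (y * r + y' * 2 ^ (k + 3)) * m := by rw [hy, one_mul]
            linear_combination this
          rw [e1]
          have h10 : ((2 ^ k : ℕ) : ℤ) ∣ 2 ^ (k + 3) := by
            push_cast
            exact pow_dvd_pow 2 (by omega)
          exact dvd_sub (Dvd.dvd.mul_right (Dvd.dvd.mul_left h10 _) _) (Dvd.dvd.mul_left (h10.trans hs) _)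
        have h11 := (ZMod.intCast_zmod_eq_zero_iff_dvd _ _).2 h9
        push_cast at h11
        rw [sub_eq_zero] at h11
        rw [← h11, hm, ZMod.natCast_zmod_val]
      have h8 : m % 8 = 1 ∨ m % 8 = 3 ∨ m % 8 = 5 ∨ m % 8 = 7 := by omega
      rcases h8 with h | h | h | h
      · obtain ⟨s, hs⟩ := key 1 (by omega) ⟨0, by norm_num⟩
        exact ⟨0, s, by simpa using hs⟩
      · obtain ⟨s, hs⟩ := key 3 (by omega) ⟨1, by norm_num⟩
        exact ⟨1, s, by simpa using hs⟩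
      · obtain ⟨s, hs⟩ := key 5 (by omega) ⟨2, by norm_num⟩
        exact ⟨2, s, by simpa using hs⟩
      · obtain ⟨s, hs⟩ := key 7 (by omega) ⟨3, by norm_num⟩
        exact ⟨3, s, by simpa using hs⟩
  · haveI := ZMod.isCyclic_units_of_prime_pow p hp h2 k
    obtain ⟨g, hg⟩ := IsCyclic.exists_generator (α := (ZMod (p ^ k))ˣ)
    refine ⟨![1, g, 1, 1], fun u => ?_⟩
    obtain ⟨e, rfl⟩ := Subgroup.mem_zpowers_iff.1 (hg u)
    rcases Int.even_or_odd e with ⟨t, ht⟩ | ⟨t, ht⟩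
    · refine ⟨0, ((g ^ t : (ZMod (p ^ k))ˣ) : ZMod (p ^ k)), ?_⟩
      rw [ht, zpow_add, Units.val_mul]
      simp [sq]
    · refine ⟨1, ((g ^ t : (ZMod (p ^ k))ˣ) : ZMod (p ^ k)), ?_⟩
      rw [ht, zpow_add, two_mul, zpow_add, zpow_one, Units.val_mul, Units.val_mul]
      simp only [Matrix.cons_val_one, Matrix.cons_val_zero]
      ring

theorem good_zmod (hp : p.Prime) : Good (ZMod (p ^ k)) := by
  haveI : NeZero (p ^ k) := ⟨pow_ne_zero _ hp.ne_zero⟩
  refine ⟨pre_zmod p k hp, ?_, ?_⟩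
  · obtain ⟨U, hU⟩ := unit_cls p k hp
    refine ⟨fun i => (p : ZMod (p ^ k)) ^ ((finProdFinEquiv (m := 2) (n := 4)).symm i).1.val *
      U ((finProdFinEquiv (m := 2) (n := 4)).symm i).2, fun c => ?_⟩
    obtain ⟨i, u, rfl⟩ := repr_pow p k hp c
    obtain ⟨q, s, hs⟩ := hU u
    refine ⟨finProdFinEquiv (⟨i % 2, Nat.mod_lt _ (by norm_num)⟩, q), (p : ZMod (p ^ k)) ^ (i / 2) * s, ?_⟩
    beta_reduce
    rw [Equiv.symm_apply_apply, hs]
    have h1 : (p : ZMod (p ^ k)) ^ i = (p : ZMod (p ^ k)) ^ (i % 2) * ((p : ZMod (p ^ k)) ^ (i / 2)) ^ 2 := by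
      rw [← pow_mul, ← pow_add]
      congr 1
      omega
    rw [h1]
    ring
  · obtain ⟨a, b, c, d, h⟩ := Nat.sum_four_squares (p ^ k - 1)
    refine ⟨a, b, c, d, ?_⟩
    have h1 : 1 + a ^ 2 + b ^ 2 + c ^ 2 + d ^ 2 = p ^ k := by
      have := Nat.pos_of_ne_zero (NeZero.ne (p ^ k))
      omega
    have h2 := congrArg (Nat.cast : ℕ → ZMod (p ^ k)) h1
    push_cast at h2
    rw [h2, ← Nat.cast_pow, ZMod.natCast_self]

end Pool.Agent.V5helper88.PI
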