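import Mathlib
import Pool.Agent.Y109.PI.Mat

/-! An alternating matrix modulo a prime power with many vectors in its kernel is a sum of few decomposable ones. -/

set_option autoImplicit false
set_option linter.all false

open Matrix

noncomputable section

namespace Pool.Agent.V5helper88.PI

open Pool.Agent.Y109.PI

/-- a lift of an alternating matrix to the integers -/
def liftAlt {q n : ℕ} (A : Matrix (Fin n) (Fin n) (ZMod q)) : Matrix (Fin n) (Fin n) ℤ :=
  Matrix.of fun u v => if u < v then ((A u v).val : ℤ) else if v < u then - ((A v u).val : ℤ) else 0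

theorem liftAlt_alt {q n : ℕ} (A : Matrix (Fin n) (Fin n) (ZMod q)) : Alt (liftAlt A) := by
  constructor
  · intro i; simp [liftAlt]
  · intro i j
    simp only [liftAlt, Matrix.of_apply]
    rcases lt_trichotomy i j with h | h | h
    · rw [if_pos h, if_neg h.not_gt, if_pos h, neg_neg]
    · subst h; rw [if_neg (lt_irrefl _), if_neg (lt_irrefl _), neg_zero]
    · rw [if_neg h.not_gt, if_pos h, if_pos h]

theorem liftAlt_cast {q n : ℕ} [NeZero q] (A : Matrix (Fin n) (Fin n) (ZMod q)) (hA : Alt A) (i j : Fin n) :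
    ((liftAlt A i j : ℤ) : ZMod q) = A i j := by
  simp only [liftAlt, Matrix.of_apply]
  rcases lt_trichotomy i j with h | h | h
  · rw [if_pos h]; simp
  · subst h; rw [if_neg (lt_irrefl _), if_neg (lt_irrefl _), hA.1]; simp
  · rw [if_neg h.not_gt, if_pos h, hA.2 i j]; simp

theorem alt_conj {R : Type*} [CommRing R] {I J : Type*} [Fintype I] [Fintype J] {b : Matrix I I R} (hb : Alt b)
    (D : Matrix I J R) : Alt (D.transpose * b * D) := by
  have key : ∀ i j, (D.transpose * b * D) i j = (fun l => D l i) ⬝ᵥ (b *ᵥ fun l => D l j) := by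
    intro i j
    rw [Matrix.mul_assoc, Matrix.mul_apply]
    simp only [dotProduct, Matrix.transpose_apply]
    refine Finset.sum_congr rfl fun l _ => ?_
    rw [Matrix.mul_apply]
    rfl
  exact ⟨fun i => by rw [key, alt_dot_self hb], fun i j => by rw [key, key, alt_dot hb]⟩

theorem dec_local {q : ℕ} [NeZero q] [Nontrivial (ZMod q)] [PreValuationRing (ZMod q)]
    {I : Type*} [Fintype I] [DecidableEq I] (B : Matrix I I (ZMod q)) (hB : Alt B) (j s : ℕ)
    (v u : Fin j → I → ZMod q) (huv : ∀ i i', u i ⬝ᵥ v i' = if i = i' then 1 else 0)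
    (hBv : ∀ i, B *ᵥ v i = 0) (hcard : Fintype.card I ≤ 2 * s + 1 + j) :
    ∃ e f : Fin s → I → ℤ, ∀ x y, B x y = (((∑ i, wdg (e i) (f i) : Matrix I I ℤ) x y : ℤ) : ZMod q) := by
  classical
  let R := ZMod q
  let U : (I → R) →ₗ[R] (Fin j → R) := (Matrix.of u : Matrix (Fin j) I R).mulVecLin
  let Vm : (Fin j → R) →ₗ[R] (I → R) := Fintype.linearCombination R v
  have hU : ∀ x i, U x i = u i ⬝ᵥ x := fun x i => rfl
  have hVm : ∀ a, Vm a = ∑ i, a i • v i := fun a => Fintype.linearCombination_apply R v a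
  have hUV : ∀ a, U (Vm a) = a := by
    intro a
    funext i
    rw [hU, hVm, dotProduct_sum, Finset.sum_eq_single i]
    · rw [dotProduct_smul, huv, if_pos rfl, smul_eq_mul, mul_one]
    · intro i' _ h; rw [dotProduct_smul, huv, if_neg (Ne.symm h), smul_zero]
    · intro h; exact absurd (Finset.mem_univ _) h
  let Q : Submodule R (I → R) := LinearMap.ker U
  let P0 : (I → R) →ₗ[R] (I → R) := LinearMap.id - Vm ∘ₗ U
  have hPmem : ∀ x, P0 x ∈ Q := by
    intro x
    rw [LinearMap.mem_ker, LinearMap.sub_apply, map_sub, LinearMap.comp_apply, hUV, LinearMap.id_apply, sub_self]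
  let P : (I → R) →ₗ[R] Q := LinearMap.codRestrict Q P0 hPmem
  have hP : ∀ x, ((P x : Q) : I → R) = x - Vm (U x) := fun x => rfl
  have hPs : P ∘ₗ Q.subtype = LinearMap.id := by
    ext x : 2
    rw [LinearMap.comp_apply, Submodule.subtype_apply, hP, LinearMap.mem_ker.1 x.2, map_zero, sub_zero,
      LinearMap.id_apply]
  have hPsurj : Function.Surjective P := fun x => ⟨x, by
    have := LinearMap.congr_fun hPs x
    exact this⟩
  haveI : Module.Finite R Q := Module.Finite.of_surjective P hPsurj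
  haveI : Module.Projective R Q := Module.Projective.of_split Q.subtype P hPs
  haveI : IsLocalRing R := inferInstance
  haveI : Module.Free R Q := Module.free_of_flat_of_isLocalRing
  have hPV : ∀ a, P (Vm a) = 0 := fun a => Subtype.ext (by rw [hP, hUV, sub_self]; rfl)
  have hPq : ∀ x : Q, P (x : I → R) = x := fun x => LinearMap.congr_fun hPs x
  have hUq : ∀ x : Q, U (x : I → R) = 0 := fun x => LinearMap.mem_ker.1 x.2
  let E : (I → R) ≃ₗ[R] ((Fin j → R) × Q) :=
    { toFun := fun x => (U x, P x)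
      map_add' := fun x y => by rw [map_add, map_add]; rfl
      map_smul' := fun c x => by rw [map_smul, map_smul]; rfl
      invFun := fun y => Vm y.1 + (y.2 : I → R)
      left_inv := fun x => by
        change Vm (U x) + (x - Vm (U x)) = x
        abel
      right_inv := fun y => by
        change (U (Vm y.1 + (y.2 : I → R)), P (Vm y.1 + (y.2 : I → R))) = y
        rw [map_add, map_add, hUV, hUq, hPV, hPq, add_zero, zero_add] }
  have hrk : Module.finrank R Q + j = Fintype.card I := by
    have h1 := E.finrank_eq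
    rw [Module.finrank_fintype_fun_eq_card, Module.finrank_prod, Module.finrank_fintype_fun_eq_card,
      Fintype.card_fin] at h1
    omega
  let bQ := Module.finBasis R Q
  set d := Module.finrank R Q with hd
  let D : Matrix (Fin d) I R := Matrix.of fun l i => bQ.repr (P (Pi.single i 1)) l
  let B2 : Matrix (Fin d) (Fin d) R := Matrix.of fun l l' => (bQ l : I → R) ⬝ᵥ (B *ᵥ (bQ l' : I → R))
  have hB2 : Alt B2 := ⟨fun l => alt_dot_self hB _, fun l l' => alt_dot hB _ _⟩
  have hBVm : ∀ a, B *ᵥ (Vm a) = 0 := by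
    intro a
    rw [hVm, Matrix.mulVec_sum]
    exact Finset.sum_eq_zero fun i _ => by rw [Matrix.mulVec_smul, hBv, smul_zero]
  have hBVm' : ∀ a y, Vm a ⬝ᵥ (B *ᵥ y) = 0 := by
    intro a y
    rw [alt_dot hB, hBVm, dotProduct_zero, neg_zero]
  have hPe : ∀ i, ((P (Pi.single i 1) : Q) : I → R) = ∑ l, D l i • (bQ l : I → R) := by
    intro i
    have h1 := bQ.sum_repr (P (Pi.single i 1))
    have h2 := congrArg (Q.subtype) h1
    rw [map_sum] at h2
    simp only [map_smul, Submodule.subtype_apply] at h2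
    exact h2.symm
  have hBD : ∀ i i', B i i' = ∑ l, ∑ l', D l i * B2 l l' * D l' i' := by
    intro i i'
    have h1 : B i i' = (Pi.single i 1 : I → R) ⬝ᵥ (B *ᵥ (Pi.single i' 1)) := by
      rw [single_one_dotProduct, mulVec_single_one, Matrix.col_apply]
    have h2 : ∀ i : I, (Pi.single i 1 : I → R) = Vm (U (Pi.single i 1)) + ((P (Pi.single i 1) : Q) : I → R) := by
      intro i; rw [hP]; abel
    rw [h1, h2 i, h2 i', Matrix.mulVec_add, hBVm, zero_add, add_dotProduct, hBVm', zero_add, hPe, hPe,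
      sum_dotProduct]
    refine Finset.sum_congr rfl fun l _ => ?_
    rw [Matrix.mulVec_sum, dotProduct_sum]
    refine Finset.sum_congr rfl fun l' _ => ?_
    rw [Matrix.mulVec_smul, smul_dotProduct, dotProduct_smul, smul_eq_mul, smul_eq_mul]
    change _ = D l i * ((bQ l : I → R) ⬝ᵥ (B *ᵥ (bQ l' : I → R))) * D l' i'
    ring
  -- integers
  let Dz : Matrix (Fin d) I ℤ := Matrix.of fun l i => ((D l i).val : ℤ)
  let Bz : Matrix I I ℤ := Dz.transpose * liftAlt B2 * Dz
  have hBz : Alt Bz := alt_conj (liftAlt_alt B2) Dz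
  have hrank : (Bz.map (algebraMap ℤ ℚ)).rank ≤ 2 * s + 1 := by
    have h1 : Bz.map (algebraMap ℤ ℚ) = (Dz.transpose * liftAlt B2).map (algebraMap ℤ ℚ) * Dz.map (algebraMap ℤ ℚ) :=
      Matrix.map_mul
    rw [h1]
    have h2 := Matrix.rank_mul_le_right ((Dz.transpose * liftAlt B2).map (algebraMap ℤ ℚ)) (Dz.map (algebraMap ℤ ℚ))
    have h3 := Matrix.rank_le_card_height (Dz.map (algebraMap ℤ ℚ))
    rw [Fintype.card_fin] at h3
    omega
  obtain ⟨e, f, hef⟩ := decomp (K := ℚ) (RingHom.injective_int (algebraMap ℤ ℚ)) s Bz hBz hrank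
  refine ⟨e, f, fun x y => ?_⟩
  rw [← hef, hBD]
  have h1 : ((Bz x y : ℤ) : ZMod q) = ∑ l', ∑ l, D l x * B2 l l' * D l' y := by
    simp only [Bz, Matrix.mul_apply, Int.cast_sum, Int.cast_mul, Matrix.transpose_apply, Finset.sum_mul]
    refine Finset.sum_congr rfl fun l' _ => Finset.sum_congr rfl fun l _ => ?_
    rw [liftAlt_cast B2 hB2]
    simp [Dz]
  rw [h1, Finset.sum_comm]

end Pool.Agent.V5helper88.PI
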