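import Mathlib
import Pool.Agent.V5helper88.PI.Iso
import Pool.Agent.V5helper88.PI.Dec

/-! Adding the product of a symmetric matrix and a fixed alternating one lowers the rank. -/

set_option autoImplicit false
set_option linter.all false

open Matrix

noncomputable section

namespace Pool.Agent.V5helper88.PI

open Pool.Agent.Y109.PI

/-- the product of `S` and `Θ` in the first block -/
def ten {R : Type*} [CommRing R] {m c r : ℕ} (S : Matrix (Fin m) (Fin m) R) (Th : Matrix (Fin c) (Fin c) R) :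
    Matrix ((Fin m × Fin c) ⊕ Fin r) ((Fin m × Fin c) ⊕ Fin r) R :=
  Matrix.fromBlocks (Matrix.of fun x y => S x.1 y.1 * Th x.2 y.2) 0 0 0

theorem lin_exp {R : Type*} [CommRing R] {m : ℕ} (f : (Fin m → R) →ₗ[R] R) (x : Fin m → R) :
    f x = ∑ i, x i * f (Pi.single i 1) := by
  classical
  conv_lhs => rw [pi_eq_sum_univ' x, map_sum]
  refine Finset.sum_congr rfl fun i _ => ?_
  rw [map_smul, smul_eq_mul]

theorem alt_ten {R : Type*} [CommRing R] {m c r : ℕ} (T : Matrix (Fin m) (Fin m) R) (Th : Matrix (Fin c) (Fin c) R)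
    (hTh : Alt Th) : Alt (ten (r := r) (T + T.transpose) Th) := by
  constructor
  · rintro (⟨i, a⟩ | l)
    · simp [ten, hTh.1 a]
    · simp [ten]
  · rintro (⟨i, a⟩ | l) (⟨i', a'⟩ | l')
    · simp only [ten, fromBlocks_apply₁₁, Matrix.of_apply, Matrix.add_apply, Matrix.transpose_apply]
      rw [hTh.2 a a']; ring
    · simp [ten]
    · simp [ten]
    · simp [ten]

theorem ten_local {q : ℕ} [NeZero q] [Nontrivial (ZMod q)] (hG : Good (ZMod q)) {c r m : ℕ} (hc : 0 < c) (j s : ℕ)
    (B : Matrix ((Fin m × Fin c) ⊕ Fin r) ((Fin m × Fin c) ⊕ Fin r) (ZMod q)) (hB : Alt B)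
    (Th Ti : Matrix (Fin c) (Fin c) (ZMod q)) (hTh : Alt Th) (hTi : Ti * Th = 1)
    (hm : nv c + (j * c) * (2 * c + 1) + c * r ≤ m) (hcard : m * c + r ≤ 2 * s + 1 + j) :
    ∃ (T : Matrix (Fin m) (Fin m) (ZMod q)) (e f : Fin s → ((Fin m × Fin c) ⊕ Fin r) → ℤ), ∀ x y,
      (B + ten (T + T.transpose) Th : Matrix _ _ (ZMod q)) x y = (((∑ i, wdg (e i) (f i) : Matrix _ _ ℤ) x y : ℤ) : ZMod q) := by
  classical
  haveI := hG.pre
  let R := ZMod q
  let F : Fin c × Fin c → LinearMap.BilinForm R (Fin m → R) := fun a =>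
    Matrix.toBilin' (Matrix.of fun i i' => B (Sum.inl (i, a.1)) (Sum.inl (i', a.2)))
  have hF : ∀ a x y, F a x y = ∑ i, ∑ i', x i * B (Sum.inl (i, a.1)) (Sum.inl (i', a.2)) * y i' := fun a x y =>
    Matrix.toBilin'_apply _ _ _
  have hF1 : ∀ a x i', F a x (Pi.single i' 1) = ∑ i, x i * B (Sum.inl (i, a.1)) (Sum.inl (i', a.2)) := by
    intro a x i'
    rw [hF]
    refine Finset.sum_congr rfl fun i _ => ?_
    rw [Finset.sum_eq_single i']
    · rw [Pi.single_eq_same, mul_one]
    · intro b _ hb; rw [Pi.single_eq_of_ne hb, mul_zero]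
    · intro h; exact absurd (Finset.mem_univ _) h
  let G : Fin c × Fin r → (Fin m → R) →ₗ[R] R := fun a =>
    ∑ i, B (Sum.inl (i, a.1)) (Sum.inr a.2) • LinearMap.proj i
  have hGa : ∀ a x, G a x = ∑ i, B (Sum.inl (i, a.1)) (Sum.inr a.2) * x i := by
    intro a x
    simp only [G, LinearMap.sum_apply, LinearMap.smul_apply, LinearMap.proj_apply, smul_eq_mul]
  obtain ⟨w0, lam0, h1, h2, h3⟩ := hG.many (κ := Fin c) (κ' := Fin c × Fin r) (j * c) m (by
    simp only [Fintype.card_prod, Fintype.card_fin]; exact hm)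
    (fun i a' => F ((finProdFinEquiv (m := j) (n := c)).symm i |>.2, a')) G
  let w : Fin j × Fin c → Fin m → R := fun x => w0 (finProdFinEquiv x)
  let lam : Fin j × Fin c → (Fin m → R) →ₗ[R] R := fun x => lam0 (finProdFinEquiv x)
  have hlw : ∀ x y, lam x (w y) = if x = y then 1 else 0 := by
    intro x y
    rw [h1]
    simp only [finProdFinEquiv.injective.eq_iff]
  have hFw : ∀ k a a' y, F (a, a') (w (k, a)) (w y) = 0 := by
    intro k a a' y
    have h := h2 a' (finProdFinEquiv (k, a)) (finProdFinEquiv y)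
    rw [Equiv.symm_apply_apply] at h
    exact h
  have hGw : ∀ a x, G a (w x) = 0 := fun a x => h3 a _
  let phi : Fin j → Fin c → Fin m → R := fun k a' i' => ∑ a, F (a, a') (w (k, a)) (Pi.single i' 1)
  let psi : Fin j × Fin c → Fin m → R := fun x i' => - ∑ a', phi x.1 a' i' * Ti a' x.2
  let T : Matrix (Fin m) (Fin m) R := Matrix.of fun i i' => ∑ x, lam x (Pi.single i 1) * psi x i'
  have hpsiw : ∀ x y, ∑ i, w y i * psi x i = 0 := by
    intro x y
    have e1 : ∀ i, w y i * psi x i = - ∑ a', (∑ a, w y i * F (a, a') (w (x.1, a)) (Pi.single i 1)) * Ti a' x.2 := by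
      intro i
      simp only [psi, phi]
      rw [mul_neg, Finset.mul_sum]
      congr 1
      refine Finset.sum_congr rfl fun a' _ => ?_
      rw [← mul_assoc, Finset.mul_sum]
    rw [Finset.sum_congr rfl fun i _ => e1 i, Finset.sum_neg_distrib, Finset.sum_comm, neg_eq_zero]
    refine Finset.sum_eq_zero fun a' _ => ?_
    rw [← Finset.sum_mul, Finset.sum_comm]
    have e2 : ∑ a, ∑ i, w y i * F (a, a') (w (x.1, a)) (Pi.single i 1) = 0 := by
      refine Finset.sum_eq_zero fun a _ => ?_
      rw [← lin_exp (F (a, a') (w (x.1, a))) (w y)]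
      exact hFw _ _ _ _
    rw [e2, zero_mul]
  have hlamw : ∀ x y, ∑ i, w y i * lam x (Pi.single i 1) = if x = y then 1 else 0 := by
    intro x y
    rw [← lin_exp, hlw]
  have hSw : ∀ y i', ∑ i, w y i * (T + T.transpose) i i' = psi y i' := by
    intro y i'
    have e1 : ∀ i, w y i * (T + T.transpose) i i' = (∑ x, (w y i * lam x (Pi.single i 1)) * psi x i') +
        ∑ x, (w y i * psi x i) * lam x (Pi.single i' 1) := by
      intro i
      simp only [T, Matrix.add_apply, Matrix.transpose_apply, Matrix.of_apply, mul_add]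
      rw [Finset.mul_sum, Finset.mul_sum]
      congr 1
      · exact Finset.sum_congr rfl fun x _ => by ring
      · exact Finset.sum_congr rfl fun x _ => by ring
    rw [Finset.sum_congr rfl fun i _ => e1 i, Finset.sum_add_distrib, Finset.sum_comm,
      Finset.sum_comm (f := fun i x => (w y i * psi x i) * lam x (Pi.single i' 1))]
    have e2 : ∑ x, ∑ i, w y i * lam x (Pi.single i 1) * psi x i' = psi y i' := by
      rw [Finset.sum_eq_single y]
      · rw [← Finset.sum_mul, hlamw, if_pos rfl, one_mul]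
      · intro x _ hx; rw [← Finset.sum_mul, hlamw, if_neg hx, zero_mul]
      · intro h; exact absurd (Finset.mem_univ _) h
    have e3 : ∑ x, ∑ i, w y i * psi x i * lam x (Pi.single i' 1) = 0 := by
      refine Finset.sum_eq_zero fun x _ => ?_
      rw [← Finset.sum_mul, hpsiw, zero_mul]
    rw [e2, e3, add_zero]
  have hpsiTh : ∀ k a' i', ∑ a, psi (k, a) i' * Th a a' = - phi k a' i' := by
    intro k a' i'
    have e1 : ∀ a, psi (k, a) i' * Th a a' = - ∑ a1, phi k a1 i' * (Ti a1 a * Th a a') := by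
      intro a
      simp only [psi]
      rw [neg_mul, Finset.sum_mul]
      congr 1
      exact Finset.sum_congr rfl fun a1 _ => by ring
    rw [Finset.sum_congr rfl fun a _ => e1 a, Finset.sum_neg_distrib, Finset.sum_comm]
    congr 1
    have e2 : ∀ a1, ∑ a, phi k a1 i' * (Ti a1 a * Th a a') = phi k a1 i' * (1 : Matrix (Fin c) (Fin c) R) a1 a' := by
      intro a1
      rw [← Finset.mul_sum, ← hTi, Matrix.mul_apply]
    rw [Finset.sum_congr rfl fun a1 _ => e2 a1, Finset.sum_eq_single a']
    · rw [Matrix.one_apply_eq, mul_one]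
    · intro b _ hb; rw [Matrix.one_apply_ne hb, mul_zero]
    · intro h; exact absurd (Finset.mem_univ _) h
  set B' := B + ten (T + T.transpose) Th with hB'
  have hB'alt : Alt B' := by
    constructor
    · intro x; rw [hB', Matrix.add_apply, hB.1, (alt_ten T Th hTh).1, add_zero]
    · intro x y; rw [hB', Matrix.add_apply, Matrix.add_apply, hB.2 x y, (alt_ten T Th hTh).2 x y]; ring
  let v : Fin j → ((Fin m × Fin c) ⊕ Fin r) → R := fun k => Sum.elim (fun x => w (k, x.2) x.1) (fun _ => 0)
  let u : Fin j → ((Fin m × Fin c) ⊕ Fin r) → R := fun k =>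
    Sum.elim (fun x => if x.2 = ⟨0, hc⟩ then lam (k, ⟨0, hc⟩) (Pi.single x.1 1) else 0) (fun _ => 0)
  have huv : ∀ k k', u k ⬝ᵥ v k' = if k = k' then 1 else 0 := by
    intro k k'
    simp only [u, v, dotProduct, Fintype.sum_sum_type, Sum.elim_inl, Sum.elim_inr, mul_zero, Finset.sum_const_zero,
      add_zero]
    rw [Fintype.sum_prod_type]
    have e1 : ∀ i, (∑ a : Fin c, (if a = (⟨0, hc⟩ : Fin c) then lam (k, ⟨0, hc⟩) (Pi.single i 1) else 0) * w (k', a) i) =
        w (k', ⟨0, hc⟩) i * lam (k, ⟨0, hc⟩) (Pi.single i 1) := by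
      intro i
      rw [Finset.sum_eq_single (⟨0, hc⟩ : Fin c)]
      · rw [if_pos rfl, mul_comm]
      · intro b _ hb; rw [if_neg hb, zero_mul]
      · intro h; exact absurd (Finset.mem_univ _) h
    rw [Finset.sum_congr rfl fun i _ => e1 i, hlamw]
    simp only [Prod.mk.injEq, and_true]
  have hBv : ∀ k, B' *ᵥ v k = 0 := by
    intro k
    funext x
    rw [Pi.zero_apply]
    simp only [mulVec, dotProduct, Fintype.sum_sum_type, v, Sum.elim_inl, Sum.elim_inr, mul_zero,
      Finset.sum_const_zero, add_zero]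
    rw [Fintype.sum_prod_type, Finset.sum_comm]
    rcases x with ⟨i', a'⟩ | l
    · have e1 : ∀ a, ∑ i, B' (Sum.inl (i', a')) (Sum.inl (i, a)) * w (k, a) i =
          - (F (a, a') (w (k, a)) (Pi.single i' 1) + psi (k, a) i' * Th a a') := by
        intro a
        rw [hF1, ← hSw (k, a) i', Finset.sum_mul, ← Finset.sum_add_distrib, ← Finset.sum_neg_distrib]
        refine Finset.sum_congr rfl fun i _ => ?_
        rw [hB'alt.2, hB']
        simp only [ten, Matrix.add_apply, fromBlocks_apply₁₁, Matrix.of_apply]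
        ring
      rw [Finset.sum_congr rfl fun a _ => e1 a, Finset.sum_neg_distrib, Finset.sum_add_distrib, hpsiTh]
      simp only [phi]
      ring
    · have e1 : ∀ a, ∑ i, B' (Sum.inr l) (Sum.inl (i, a)) * w (k, a) i = - G (a, l) (w (k, a)) := by
        intro a
        rw [hGa, ← Finset.sum_neg_distrib]
        refine Finset.sum_congr rfl fun i _ => ?_
        rw [hB'alt.2, hB']
        simp only [ten, Matrix.add_apply, fromBlocks_apply₁₂, Matrix.zero_apply, add_zero]
        ring
      rw [Finset.sum_congr rfl fun a _ => e1 a]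
      exact Finset.sum_eq_zero fun a _ => by rw [hGw, neg_zero]
  obtain ⟨e, f, hef⟩ := dec_local B' hB'alt j s v u huv hBv (by
    rw [Fintype.card_sum, Fintype.card_prod, Fintype.card_fin, Fintype.card_fin, Fintype.card_fin]; exact hcard)
  exact ⟨T, e, f, hef⟩

end Pool.Agent.V5helper88.PI
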