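import Mathlib
import Pool.Agent.Y109.PI.Ord
import Pool.Agent.V5helper88.PI.Arith
import Pool.Agent.V5helper88.PI.Ten

/-! The reduction of the rank modulo any number, and abstract symbols. -/

set_option autoImplicit false
set_option linter.all false

open Matrix

noncomputable section

namespace Pool.Agent.V5helper88.PI

open Pool.Agent.Y109.PI

/-- simultaneous congruences modulo prime powers -/
theorem crt_pow (n : ℕ) (a : ℕ → ℤ) : ∃ x : ℤ, ∀ p : ℕ, p.Prime → p ∣ n → 0 < n →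
    (x : ZMod (p ^ n.factorization p)) = a p := by
  classical
  obtain ⟨k, hk⟩ := Nat.chineseRemainderOfFinset (fun p => (a p : ZMod (p ^ n.factorization p)).val)
    (fun p => p ^ n.factorization p) n.primeFactors
    (fun p hp => pow_ne_zero _ (Nat.prime_of_mem_primeFactors hp).ne_zero)
    (fun p hp q hq hpq => Nat.Coprime.pow _ _ ((Nat.coprime_primes (Nat.prime_of_mem_primeFactors hp)
      (Nat.prime_of_mem_primeFactors hq)).2 hpq))
  refine ⟨k, fun p hp hpn hn => ?_⟩
  haveI : NeZero (p ^ n.factorization p) := ⟨pow_ne_zero _ hp.ne_zero⟩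
  have h3 := hk p (Nat.mem_primeFactors.2 ⟨hp, hpn, hn.ne'⟩)
  have h4 := (ZMod.natCast_eq_natCast_iff _ _ _).2 h3
  rw [Int.cast_natCast, h4, ZMod.natCast_val, ZMod.cast_id]

theorem crt_pow_fun {ι : Type*} (n : ℕ) (a : ℕ → ι → ℤ) :
    ∃ x : ι → ℤ, ∀ p : ℕ, p.Prime → p ∣ n → 0 < n → ∀ i, (x i : ZMod (p ^ n.factorization p)) = a p i := by
  choose x hx using fun i => crt_pow n (fun p => a p i)
  exact ⟨x, fun p hp hpn hn i => hx i p hp hpn hn⟩

theorem dvd_of_pow (n : ℕ) (hn : 0 < n) (x : ℤ)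
    (h : ∀ p : ℕ, p.Prime → p ∣ n → ((p ^ n.factorization p : ℕ) : ℤ) ∣ x) : (n : ℤ) ∣ x := by
  rw [Int.natCast_dvd, Nat.dvd_iff_prime_pow_dvd_dvd]
  intro p k hp hk
  by_cases h0 : k = 0
  · subst h0; simp
  · have hpn : p ∣ n := (dvd_pow_self p h0).trans hk
    have h1 : k ≤ n.factorization p := (hp.pow_dvd_iff_le_factorization hn.ne').1 hk
    exact (pow_dvd_pow p h1).trans (Int.natCast_dvd.1 (h p hp hpn))

theorem ten_int (n : ℕ) (hn : 0 < n) {c r m : ℕ} (hc : 0 < c) (j s : ℕ)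
    (A : Matrix ((Fin m × Fin c) ⊕ Fin r) ((Fin m × Fin c) ⊕ Fin r) ℤ) (hA : Alt A)
    (Th : Matrix (Fin c) (Fin c) ℤ) (hTh : Alt Th) (hdet : IsCoprime Th.det (n : ℤ))
    (hm : nv c + (j * c) * (2 * c + 1) + c * r ≤ m) (hcard : m * c + r ≤ 2 * s + 1 + j) :
    ∃ (T : Matrix (Fin m) (Fin m) ℤ) (e f : Fin s → ((Fin m × Fin c) ⊕ Fin r) → ℤ), ∀ x y,
      (n : ℤ) ∣ (A + ten (T + T.transpose) Th : Matrix _ _ ℤ) x y - (∑ i, wdg (e i) (f i) : Matrix _ _ ℤ) x y := by
  classical
  have h1 : ∀ p : ℕ, ∃ (T : Fin m × Fin m → ℤ) (e f : Fin s × ((Fin m × Fin c) ⊕ Fin r) → ℤ), p.Prime → p ∣ n →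
      ∀ x y, (((A + ten ((Matrix.of fun i i' => T (i, i')) + (Matrix.of fun i i' => T (i, i')).transpose) Th :
        Matrix _ _ ℤ) x y : ℤ) : ZMod (p ^ n.factorization p)) =
        (((∑ i, wdg (fun u => e (i, u)) (fun u => f (i, u)) : Matrix _ _ ℤ) x y : ℤ) :
          ZMod (p ^ n.factorization p)) := by
    intro p
    by_cases hp : p.Prime ∧ p ∣ n
    · set q := p ^ n.factorization p with hq
      haveI : NeZero q := ⟨pow_ne_zero _ hp.1.ne_zero⟩
      have hk : 0 < n.factorization p := hp.1.factorization_pos_of_dvd hn.ne' hp.2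
      haveI : Fact (1 < q) := ⟨Nat.one_lt_pow hk.ne' hp.1.one_lt⟩
      let φ : ℤ →+* ZMod q := Int.castRingHom (ZMod q)
      have hu : IsUnit (Th.map φ).det := by
        have h2 : (Th.map φ).det = φ Th.det := (RingHom.map_det φ Th).symm
        rw [h2]
        have hqn : (q : ℤ) ∣ n := by
          exact_mod_cast Nat.ordProj_dvd n p
        obtain ⟨a, b, hab⟩ := hdet.of_isCoprime_of_dvd_right hqn
        have h3 := congrArg φ hab
        rw [map_add, map_mul, map_mul, map_one] at h3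
        have h4 : φ (q : ℤ) = 0 := by
          change ((q : ℤ) : ZMod q) = 0
          rw [Int.cast_natCast, ZMod.natCast_self]
        rw [h4, mul_zero, add_zero] at h3
        exact IsUnit.of_mul_eq_one (φ a) (by rw [mul_comm]; exact h3)
      obtain ⟨T, e, f, hT⟩ := ten_local (good_zmod p (n.factorization p) hp.1) (r := r) hc j s (A.map φ)
        (hA.map' φ) (Th.map φ) (Th.map φ)⁻¹ (hTh.map' φ) (Matrix.nonsing_inv_mul _ hu) hm hcard
      refine ⟨fun x => ((T x.1 x.2).val : ℤ), fun x => e x.1 x.2, fun x => f x.1 x.2, fun _ _ x y => ?_⟩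
      rw [← hT x y]
      rcases x with ⟨i, a⟩ | l
      · rcases y with ⟨i', a'⟩ | l'
        · simp only [ten, Matrix.add_apply, fromBlocks_apply₁₁, Matrix.of_apply, Matrix.transpose_apply,
            Matrix.map_apply]
          push_cast
          rw [ZMod.natCast_zmod_val, ZMod.natCast_zmod_val]
          rfl
        · simp only [ten, Matrix.add_apply, fromBlocks_apply₁₂, Matrix.map_apply, Matrix.zero_apply, add_zero]
          rfl
      · rcases y with ⟨i', a'⟩ | l'
        · simp only [ten, Matrix.add_apply, fromBlocks_apply₂₁, Matrix.map_apply, Matrix.zero_apply, add_zero]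
          rfl
        · simp only [ten, Matrix.add_apply, fromBlocks_apply₂₂, Matrix.map_apply, Matrix.zero_apply, add_zero]
          rfl
    · exact ⟨0, 0, 0, fun a b => absurd ⟨a, b⟩ hp⟩
  choose T e f hT using h1
  obtain ⟨T', hT'⟩ := crt_pow_fun n T
  obtain ⟨e', he'⟩ := crt_pow_fun n e
  obtain ⟨f', hf'⟩ := crt_pow_fun n f
  refine ⟨Matrix.of fun i i' => T' (i, i'), fun i u => e' (i, u), fun i u => f' (i, u), fun x y => ?_⟩
  refine dvd_of_pow n hn _ fun p hp hpn => ?_
  rw [← ZMod.intCast_zmod_eq_zero_iff_dvd, Int.cast_sub, sub_eq_zero]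
  have h2 := hT p hp hpn x y
  have h3 : (((∑ i, wdg (fun u => e' (i, u)) (fun u => f' (i, u)) : Matrix _ _ ℤ) x y : ℤ) :
      ZMod (p ^ n.factorization p)) = (((∑ i, wdg (fun u => e p (i, u)) (fun u => f p (i, u)) : Matrix _ _ ℤ) x y : ℤ) :
          ZMod (p ^ n.factorization p)) := by
    simp only [Matrix.sum_apply, wdg, Matrix.of_apply, Int.cast_sum, Int.cast_sub, Int.cast_mul]
    refine Finset.sum_congr rfl fun i _ => ?_
    rw [he' p hp hpn hn, he' p hp hpn hn, hf' p hp hpn hn, hf' p hp hpn hn]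
  rw [h3, ← h2]
  rcases x with ⟨i, a⟩ | l
  · rcases y with ⟨i', a'⟩ | l'
    · simp only [ten, Matrix.add_apply, fromBlocks_apply₁₁, Matrix.of_apply, Matrix.transpose_apply]
      push_cast
      rw [hT' p hp hpn hn, hT' p hp hpn hn]
    · simp only [ten, Matrix.add_apply, fromBlocks_apply₁₂]
  · rcases y with ⟨i', a'⟩ | l'
    · simp only [ten, Matrix.add_apply, fromBlocks_apply₂₁]
    · simp only [ten, Matrix.add_apply, fromBlocks_apply₂₂]

section

variable {G B : Type*} [CommGroup G] [CommGroup B] {s : G →* G →* B}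

/-- **Abstract symbols**: few symbols suffice. -/
theorem abs_ten (hanti : ∀ a b, s a b = (s b a)⁻¹) (n : ℕ) (hn : 0 < n)
    (htors : ∀ a b, s a b ^ n = 1) (ε : G)
    (H : Subgroup G) (hε : ε ∈ H) (hdiag : ∀ a, s a a = 1 ∨ s a a = s a ε) (hH : ∀ a ∈ H, ∀ b, s a b = 1)
    {c r m : ℕ} (hc : 0 < c) (j t : ℕ) (z : (Fin m × Fin c) ⊕ Fin r → G) (w : Fin c → Fin c → ℤ)
    (hdet : IsCoprime (dif w).det (n : ℤ))
    (hrel : ∀ i i', (∏ u, ∏ v, s (z (Sum.inl (i, u))) (z (Sum.inl (i', v))) ^ w u v) *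
      (∏ u, ∏ v, s (z (Sum.inl (i', u))) (z (Sum.inl (i, v))) ^ w u v) = 1)
    (hm : nv c + (j * c) * (2 * c + 1) + c * r ≤ m) (hcard : m * c + r ≤ 2 * t + 1 + j)
    (α : B) (hα : α ∈ Subgroup.closure {γ | ∃ a ∈ H ⊔ Subgroup.closure (Set.range z),
      ∃ b ∈ H ⊔ Subgroup.closure (Set.range z), γ = s a b}) :
    ∃ x y : Fin t → G, α = ∏ i, s (x i) (y i) := by
  classical
  have hlow : low s H ⊥ z ≤ (⊥ : Subgroup B) := by
    refine sup_le le_rfl ?_
    rw [Subgroup.closure_le]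
    rintro γ ⟨a, ha, u, rfl⟩
    rw [hH a ha]
    exact Subgroup.one_mem _
  obtain ⟨w1, hw1⟩ := exists_Q hanti H ⊥ (fun a ha b hb => by rw [hH a ha]; exact Subgroup.one_mem _) z α hα
  obtain ⟨T, e, f, h⟩ := ten_int n hn hc j t (dif w1) (alt_dif w1) (dif w) (alt_dif w) hdet hm hcard
  let w0 : ((Fin m × Fin c) ⊕ Fin r) → ((Fin m × Fin c) ⊕ Fin r) → ℤ :=
    Matrix.fromBlocks (Matrix.of fun x y => (T + T.transpose) x.1 y.1 * w x.2 y.2) 0 0 0
  have hw0 : ∀ x y, w0 x y - w0 y x = ten (T + T.transpose) (dif w) x y := by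
    rintro (⟨i, a⟩ | l) (⟨i', a'⟩ | l')
    · simp only [w0, ten, fromBlocks_apply₁₁, Matrix.of_apply, Matrix.add_apply, Matrix.transpose_apply, dif]
      ring
    · simp [w0, ten]
    · simp [w0, ten]
    · simp [w0, ten]
  let q : Fin m → Fin m → B := fun i i' => ∏ u, ∏ v, s (z (Sum.inl (i, u))) (z (Sum.inl (i', v))) ^ w u v
  have hQ0 : Q s z w0 = 1 := by
    have e1 : Q s z w0 = ∏ i, ∏ i', q i i' ^ ((T + T.transpose) i i') := by
      have e0 : Q s z w0 = ∏ x, ∏ y, s (z x) (z y) ^ w0 x y := Fintype.prod_prod_type _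
      have e2 : ∀ l : Fin r, (∏ y, s (z (Sum.inr l)) (z y) ^ w0 (Sum.inr l) y) = 1 := by
        intro l
        refine Finset.prod_eq_one fun y _ => ?_
        rcases y with ⟨i', a'⟩ | l'
        · simp [w0]
        · simp [w0]
      rw [e0, Fintype.prod_sum_type, Finset.prod_eq_one fun l _ => e2 l, mul_one, Fintype.prod_prod_type]
      refine Finset.prod_congr rfl fun i _ => ?_
      have e3 : ∀ a : Fin c, (∏ y, s (z (Sum.inl (i, a))) (z y) ^ w0 (Sum.inl (i, a)) y) =
          ∏ i', ∏ a', (s (z (Sum.inl (i, a))) (z (Sum.inl (i', a'))) ^ w a a') ^ ((T + T.transpose) i i') := by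
        intro a
        have e4 : ∀ l : Fin r, s (z (Sum.inl (i, a))) (z (Sum.inr l)) ^ w0 (Sum.inl (i, a)) (Sum.inr l) = 1 :=
          fun l => by simp [w0]
        rw [Fintype.prod_sum_type, Finset.prod_eq_one fun l _ => e4 l, mul_one, Fintype.prod_prod_type]
        refine Finset.prod_congr rfl fun i' _ => Finset.prod_congr rfl fun a' _ => ?_
        rw [← _root_.zpow_mul, mul_comm (w a a')]
        rfl
      rw [Finset.prod_congr rfl fun a _ => e3 a, Finset.prod_comm]
      refine Finset.prod_congr rfl fun i' _ => ?_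
      simp only [q, Finset.prod_zpow]
    rw [e1]
    have e5 : ∏ i, ∏ i', q i i' ^ ((T + T.transpose) i i') = ∏ i, ∏ i', (q i i' * q i' i) ^ (T i i') := by
      have e6 : ∀ i i', q i i' ^ ((T + T.transpose) i i') = q i i' ^ (T i i') * q i i' ^ (T i' i) := by
        intro i i'
        rw [Matrix.add_apply, Matrix.transpose_apply, _root_.zpow_add]
      simp only [e6, Finset.prod_mul_distrib]
      rw [Finset.prod_comm (f := fun i i' => q i i' ^ (T i' i)), ← Finset.prod_mul_distrib]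
      refine Finset.prod_congr rfl fun i _ => ?_
      rw [← Finset.prod_mul_distrib]
      exact Finset.prod_congr rfl fun i' _ => (mul_zpow _ _ _).symm
    rw [e5]
    refine Finset.prod_eq_one fun i _ => Finset.prod_eq_one fun i' _ => ?_
    have e7 : q i i' * q i' i = 1 := hrel i i'
    rw [e7, _root_.one_zpow]
  have h1 := mod_low hanti n htors ε H hε hdiag ⊥ z (w1 + w0) t e f (by
    intro u v
    have e1 : (w1 + w0) u v - (w1 + w0) v u = (dif w1 + ten (T + T.transpose) (dif w) : Matrix _ _ ℤ) u v := by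
      rw [Matrix.add_apply, ← hw0]
      simp only [Pi.add_apply, dif, Matrix.of_apply]
      ring
    rw [e1]
    exact h u v)
  rw [Q_add, hQ0, mul_one] at h1
  have h2 := hlow h1
  have h3 := hlow hw1
  rw [Subgroup.mem_bot, mul_inv_eq_one] at h2 h3
  exact ⟨fun i => mon z (e i), fun i => mon z (f i), h3.trans h2⟩

end

end Pool.Agent.V5helper88.PI
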